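import Pool.Agent.H12.FI2

/-! Exact value of the weighted `L²` infimum over monic integer polynomials for `0 < λ ≤ 3`. -/

open Real Finset Filter Topology Polynomial Pool.Agent.H12.FI

namespace Pool.Agent.Results.MP_658dbf_an.UpTo3

/-- the integral of `|1 - e^{iθ}|^{2λ} |P(e^{iθ})|²` over `[-π, π]` -/
noncomputable def Int2 (lam : ℝ) (P : ℤ[X]) : ℝ :=
  ∫ θ in (-π)..π, ‖1 - Complex.exp (θ * Complex.I)‖ ^ (2 * lam) *
    ‖aeval (Complex.exp (θ * Complex.I)) P‖ ^ 2

/-- `I(λ)`: the infimum over monic integer polynomials -/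
noncomputable def I (lam : ℝ) : ℝ := sInf {x | ∃ P : ℤ[X], P.Monic ∧ x = Int2 lam P}

/-- `J(μ)`: the integral of `|1 - e^{iθ}|^{2μ}` over `[-π, π]` -/
noncomputable def J (mu : ℝ) : ℝ :=
  ∫ θ in (-π)..π, ‖1 - Complex.exp (θ * Complex.I)‖ ^ (2 * mu)

lemma norm_sq (t : ℝ) : ‖1 - Complex.exp (t * Complex.I)‖ ^ 2 = 2 - 2 * cos t := by
  rw [Complex.sq_norm, Complex.normSq_apply]
  simp only [Complex.sub_re, Complex.one_re, Complex.exp_ofReal_mul_I_re, Complex.sub_im,
    Complex.one_im, Complex.exp_ofReal_mul_I_im]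
  nlinarith [sin_sq_add_cos_sq t]

lemma norm_w (ε t : ℝ) : ‖1 - Complex.exp (t * Complex.I)‖ ^ (2 * ε) = w ε t := by
  rw [rpow_mul (norm_nonneg _), rpow_two, norm_sq, w]

lemma J_eq (ε : ℝ) : J ε = D ε 0 := by simp [J, D, norm_w]

lemma Int2_succ {ε : ℝ} (hε : 0 < ε) (P : ℤ[X]) : Int2 (ε + 1) P = Int2 ε ((1 - X) * P) := by
  unfold Int2
  refine intervalIntegral.integral_congr fun θ _ => ?_
  simp only [norm_w, map_mul, map_sub, map_one, aeval_X, norm_mul, mul_pow, norm_sq, w]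
  rw [rpow_add_one' (base_nonneg θ) (by positivity)]
  ring

noncomputable def co (B : ℤ[X]) (i : ℤ) : ℤ := if 0 ≤ i then B.coeff i.toNat else 0

lemma co_nat (B : ℤ[X]) (i : ℕ) : co B i = B.coeff i := by simp [co]

lemma co_supp (B : ℤ[X]) : Supp (co B) (B.natDegree + 1) := fun i hi => by
  unfold co
  split_ifs with h
  · exact coeff_eq_zero_of_natDegree_lt (by simp only [mem_Ico] at hi; omega)
  · rfl

lemma co_ne {B : ℤ[X]} (h : B ≠ 0) : ∃ x, co B x ≠ 0 :=
  ⟨B.natDegree, by rw [co_nat]; exact leadingCoeff_ne_zero.2 h⟩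

lemma sum_Ico_int {M : Type} [AddCommMonoid M] (f : ℤ → M) (N : ℕ) :
    ∑ i ∈ Ico (0 : ℤ) N, f i = ∑ i ∈ range N, f i := by
  refine (sum_nbij (fun i : ℕ => (i : ℤ)) (fun i hi => ?_) (fun _ _ _ _ h => Nat.cast_injective h)
    (fun i hi => ⟨i.toNat, ?_, ?_⟩) fun _ _ => rfl).symm
  · simp only [mem_range, mem_Ico] at *; omega
  · simp only [coe_range, coe_Ico, Set.mem_Iio, Set.mem_Ico] at *; omega
  · simp only [coe_Ico, Set.mem_Ico] at *; omega

lemma co_sum {B : ℤ[X]} (h : B.eval 1 = 0) :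
    ∑ i ∈ Ico (0 : ℤ) (B.natDegree + 1 : ℕ), co B i = 0 := by
  rw [sum_Ico_int, ← h, eval_eq_sum_range]
  simp [co_nat]

lemma co_mom {B : ℤ[X]} (h : (derivative B).eval 1 = 0) :
    ∑ i ∈ Ico (0 : ℤ) (B.natDegree + 1 : ℕ), i * co B i = 0 := by
  rw [sum_Ico_int, ← h, derivative_eval, sum_over_range _ (by simp)]
  simp [co_nat, mul_comm]

lemma Int2_eq {ε : ℝ} (hε : 0 < ε) (B : ℤ[X]) :
    Int2 ε B = ∑ i ∈ Ico (0 : ℤ) (B.natDegree + 1 : ℕ), ∑ j ∈ Ico (0 : ℤ) (B.natDegree + 1 : ℕ),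
      cast (co B) i * cast (co B) j * D ε ((j - i : ℤ) : ℝ) := by
  simp only [sum_Ico_int, D, ← intervalIntegral.integral_const_mul]
  rw [Int2, ← sum_congr rfl fun i _ => intervalIntegral.integral_finsetSum fun j _ =>
      (D_int hε _).const_mul _,
    ← intervalIntegral.integral_finsetSum fun i _ => ?_]
  · refine intervalIntegral.integral_congr fun θ _ => ?_
    have h1 : ∀ i : ℕ, Complex.exp (θ * Complex.I) ^ i = Complex.exp ((i * θ : ℝ) * Complex.I) :=
      fun i => by rw [← Complex.exp_nat_mul]; congr 1; push_cast; ring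
    simp only [norm_w, aeval_eq_sum_range, h1, Complex.sq_norm, Complex.normSq_apply,
      Complex.re_sum, Complex.im_sum, zsmul_eq_mul, Complex.mul_re, Complex.mul_im,
      Complex.intCast_re, Complex.intCast_im, Complex.exp_ofReal_mul_I_re,
      Complex.exp_ofReal_mul_I_im, zero_mul, sub_zero, add_zero, H12.FI.cast, co_nat]
    rw [sum_mul_sum, sum_mul_sum]
    simp only [← sum_add_distrib, mul_sum]
    refine sum_congr rfl fun i _ => sum_congr rfl fun j _ => ?_
    push_cast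
    rw [sub_mul, cos_sub]
    ring
  · exact (continuous_finsetSum _ fun j _ =>
      continuous_const.mul ((w_cont hε).mul (by fun_prop))).intervalIntegrable _ _

lemma lower1 {ε : ℝ} (hε : 0 < ε) (h1 : ε ≤ 1) {B : ℤ[X]} {c : ℝ}
    (hc : ∀ k : ℕ, 2 * c ≤ V (cast (co B)) (k + 1)) : c * D ε 0 ≤ Int2 ε B := by
  have := quad_ge hε h1 (co_supp B) (e := 0) (r_zero_ge (co_supp B) ⟨0, fun k _ => hc k⟩)
    (by simpa using sum_nonneg fun k _ => mul_nonneg (a_nonneg hε h1 k) (by linarith [hc k]))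
  rw [Int2_eq hε]
  simpa using this

lemma one_sub_X_ne : (1 - X : ℤ[X]) ≠ 0 := fun h => by simpa using congrArg (eval 0) h

lemma I_eq {lam v : ℝ} (h1 : ∀ P : ℤ[X], P.Monic → v ≤ Int2 lam P) (P : ℕ → ℤ[X])
    (h2 : ∀ L, (P L).Monic) (h3 : Tendsto (fun L => Int2 lam (P L)) atTop (𝓝 v)) : I lam = v := by
  refine csInf_eq_of_forall_ge_of_forall_gt_exists_lt ⟨_, P 0, h2 0, rfl⟩ ?_ fun x hx => ?_
  · rintro _ ⟨Q, hQ, rfl⟩
    exact h1 Q hQ
  · obtain ⟨L, hL⟩ := (h3.eventually (gt_mem_nhds hx)).exists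
    exact ⟨_, ⟨P L, h2 L, rfl⟩, hL⟩

noncomputable def geo (L : ℕ) : ℤ[X] := ∑ i ∈ range (L + 1), X ^ i

lemma geo_monic (L : ℕ) : (geo L).Monic := monic_geom_sum_X (by omega)

lemma geo_norm (L : ℕ) (θ : ℝ) :
    ‖aeval (Complex.exp (θ * Complex.I)) ((1 - X) * geo L)‖ ^ 2 = 2 - 2 * cos ((L + 1) * θ) := by
  rw [geo, mul_neg_geom_sum, ← norm_sq]
  simp only [map_sub, map_one, map_pow, aeval_X]
  rw [← Complex.exp_nat_mul]
  congr 4
  push_cast
  ring

lemma part1 {ε : ℝ} (hε : 0 < ε) (h1 : ε ≤ 1) : I ε = D ε 0 := by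
  refine I_eq (fun P hP => ?_) (fun _ => 1) (fun _ => monic_one) ?_
  · simpa using lower1 hε h1 (B := P) (c := 1) fun k => by
      simpa using V_two (co_supp P) (co_ne hP.ne_zero) k
  · simp [Int2, norm_w, D]

lemma part2 {ε : ℝ} (hε : 0 < ε) (h1 : ε ≤ 1) : I (ε + 1) = 2 * D ε 0 := by
  refine I_eq (fun P hP => ?_) geo geo_monic ?_
  · have hB := mul_ne_zero one_sub_X_ne hP.ne_zero
    obtain ⟨h2, h3⟩ := signs (co_ne hB) (co_supp _) (co_sum (by simp))
    rw [Int2_succ hε]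
    exact lower1 hε h1 fun k => by linarith [V_four (co_supp _) h2 h3 k]
  · have h2 : ∀ L : ℕ, Int2 (ε + 1) (geo L) = 2 * D ε 0 + 2 * a ε L := fun L => by
      rw [Int2_succ hε]
      simp only [a, D, Int2, norm_w, geo_norm]
      rw [← intervalIntegral.integral_const_mul, mul_neg, ← intervalIntegral.integral_const_mul,
        ← sub_eq_add_neg,
        ← intervalIntegral.integral_sub ((D_int hε _).const_mul _) ((D_int hε _).const_mul _)]
      refine intervalIntegral.integral_congr fun θ _ => ?_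
      simp only [zero_mul, cos_zero]
      ring
    simp only [h2]
    simpa using ((a_tendsto hε h1).const_mul 2).const_add (2 * D ε 0)

lemma part3 {ε : ℝ} (hε : 0 < ε) (h1 : ε ≤ 1) : I (ε + 1 + 1) = 4 * D ε 0 - 2 * a ε 0 := by
  refine I_eq (fun P hP => ?_) (fun L => geo L * geo (L + 1))
    (fun L => (geo_monic L).mul (geo_monic _)) ?_
  · have hB := mul_ne_zero one_sub_X_ne (mul_ne_zero one_sub_X_ne hP.ne_zero)
    obtain ⟨h2, h3⟩ := V_main (co_ne hB) (co_supp _) (co_sum (by simp)) (co_mom (by simp))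
    rw [Int2_succ (by positivity), Int2_succ hε, Int2_eq hε]
    refine quad_ge hε h1 (co_supp _) (r_zero_ge (co_supp _) (by norm_num; exact h2)) ?_
    norm_num
    simpa using h3 (a ε) (a_nonneg hε h1) (a_anti hε h1) _
  · have h2 : ∀ L : ℕ, Int2 (ε + 1 + 1) (geo L * geo (L + 1)) =
        4 * D ε 0 - 2 * a ε 0 + (4 * a ε L + 4 * a ε (L + 1) - 2 * a ε (2 * L + 2)) := fun L => by
      rw [Int2_succ (by positivity), Int2_succ hε,
        show (1 - X) * ((1 - X) * (geo L * geo (L + 1))) =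
          (1 - X) * geo L * ((1 - X) * geo (L + 1)) by ring]
      have e : Int2 ε ((1 - X) * geo L * ((1 - X) * geo (L + 1))) = ∫ θ in (-π)..π,
          (4 * (w ε θ * cos (0 * θ)) + 2 * (w ε θ * cos ((((0 : ℕ) : ℝ) + 1) * θ)) -
            4 * (w ε θ * cos ((L + 1) * θ)) - 4 * (w ε θ * cos (((L + 1 : ℕ) + 1) * θ)) +
            2 * (w ε θ * cos (((2 * L + 2 : ℕ) + 1) * θ))) := by
        refine intervalIntegral.integral_congr fun θ _ => ?_
        simp only [norm_w]
        rw [map_mul, norm_mul, mul_pow, geo_norm, geo_norm]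
        have c1 : cos ((((0 : ℕ) : ℝ) + 1) * θ) = cos (((L + 1 : ℕ) + 1) * θ - (L + 1) * θ) := by
          congr 1; push_cast; ring
        have c2 : cos (((2 * L + 2 : ℕ) + 1) * θ) = cos (((L + 1 : ℕ) + 1) * θ + (L + 1) * θ) := by
          congr 1; push_cast; ring
        rw [c1, c2, cos_sub, cos_add, zero_mul, cos_zero]
        ring
      have i := fun (c t : ℝ) => (D_int hε t).const_mul c
      rw [e, intervalIntegral.integral_add (((((i _ _).add (i _ _)).sub (i _ _))).sub (i _ _))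
        (i _ _), intervalIntegral.integral_sub ((((i _ _).add (i _ _)).sub (i _ _))) (i _ _),
        intervalIntegral.integral_sub ((i _ _).add (i _ _)) (i _ _),
        intervalIntegral.integral_add (i _ _) (i _ _)]
      simp only [intervalIntegral.integral_const_mul, a, D]
      ring
    simp only [h2]
    have t0 := a_tendsto hε h1
    have t1 := t0.comp (tendsto_add_atTop_nat 1)
    have t2 := t0.comp (tendsto_atTop_mono (f := fun L : ℕ => L) (g := fun L => 2 * L + 2)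
      (fun L => by omega) tendsto_id)
    simpa using (((t0.const_mul 4).add (t1.const_mul 4)).sub (t2.const_mul 2)).const_add
      (4 * D ε 0 - 2 * a ε 0)

theorem result (lam : ℝ) :
    (0 < lam → lam ≤ 1 → I lam = J lam) ∧
    (1 < lam → lam ≤ 2 → I lam = 2 * J (lam - 1)) ∧
    (2 < lam → lam ≤ 3 → I lam = 2 * lam / (lam - 1) * J (lam - 2)) := by
  simp only [J_eq]
  refine ⟨part1, fun h1 h2 => ?_, fun h1 h2 => ?_⟩
  · rw [← part2 (by linarith) (by linarith), sub_add_cancel]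
  · have h3 := part3 (ε := lam - 2) (by linarith) (by linarith)
    have h4 := D_rec (ε := lam - 2) (by linarith) 0
    rw [show lam - 2 + 1 + 1 = lam by ring] at h3
    simp only [a, Nat.cast_zero, zero_add] at h3 h4
    have h5 : lam - 1 ≠ 0 := by linarith
    rw [h3]
    field_simp
    linarith

end Pool.Agent.Results.MP_658dbf_an.UpTo3
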